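import Pool.Agent.W973.IP.Defs

/-!
# The matrix of the features is invertible
-/

set_option autoImplicit false

namespace Pool.Agent.W766.IP

open Pool.Agent.W973.IP

/-- The polynomial with the given coefficients. -/
noncomputable def po {r : ℕ} (y : Fin r × Fin 2 → ℝ) : Polynomial ℝ :=
  ∑ p, Polynomial.C (y p) * Polynomial.X ^ dg p

theorem dg_inj {r : ℕ} : Function.Injective (dg (r := r)) := by
  rintro ⟨i, a⟩ ⟨j, b⟩ h
  unfold dg at h
  simp only at h
  have ha := a.2
  have hb := b.2
  have h1 : (i : ℕ) = j := by omega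
  have h2 : (a : ℕ) = b := by omega
  exact Prod.ext (Fin.ext h1) (Fin.ext h2)

theorem dg_lt {r : ℕ} (p : Fin r × Fin 2) : dg p < 2 * r := by
  unfold dg
  have h1 := p.1.2
  have h2 := p.2.2
  omega

theorem po_coeff {r : ℕ} (y : Fin r × Fin 2 → ℝ) (p : Fin r × Fin 2) :
    (po y).coeff (dg p) = y p := by
  unfold po
  rw [Polynomial.finsetSum_coeff]
  rw [Finset.sum_eq_single p]
  · simp
  · intro q _ hq
    rw [Polynomial.coeff_C_mul, Polynomial.coeff_X_pow, if_neg, mul_zero]
    intro h
    exact hq (dg_inj h).symm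
  · intro h
    exact absurd (Finset.mem_univ _) h

theorem sq_dvd (p : Polynomial ℝ) (a : ℝ) (h0 : p.eval a = 0)
    (h1 : (Polynomial.derivative p).eval a = 0) :
    (Polynomial.X - Polynomial.C a) ^ 2 ∣ p := by
  obtain ⟨q, hq⟩ := Polynomial.dvd_iff_isRoot.mpr h0
  have h2 : q.eval a = 0 := by
    rw [hq] at h1
    simpa using h1
  obtain ⟨t, ht⟩ := Polynomial.dvd_iff_isRoot.mpr h2
  refine ⟨t, ?_⟩
  rw [hq, ht]
  ring

theorem po_zero {r : ℕ} (y : Fin r × Fin 2 → ℝ) (L : Fin r → ℝ) (hL : Function.Injective L)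
    (h0 : ∀ i, ∑ p, L i ^ dg p * y p = 0)
    (h1 : ∀ i, ∑ p, ((dg p : ℝ) * L i ^ (dg p - 1)) * y p = 0) : ∀ p, y p = 0 := by
  have hp : po y = 0 := by
    have hd : (∏ i : Fin r, (Polynomial.X - Polynomial.C (L i)) ^ 2) ∣ po y := by
      refine Finset.prod_dvd_of_coprime ?_ ?_
      · intro i _ j _ hij
        have h3 : IsUnit (L i - L j) := (sub_ne_zero.mpr fun h => hij (hL h)).isUnit
        exact (Polynomial.isCoprime_X_sub_C_of_isUnit_sub h3).pow
      · intro i _
        refine sq_dvd _ _ ?_ ?_
        · rw [← h0 i]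
          unfold po
          rw [Polynomial.eval_finsetSum]
          refine Finset.sum_congr rfl fun p _ => ?_
          rw [Polynomial.eval_mul, Polynomial.eval_C, Polynomial.eval_pow, Polynomial.eval_X]
          exact mul_comm _ _
        · rw [← h1 i]
          unfold po
          rw [Polynomial.derivative_sum, Polynomial.eval_finsetSum]
          refine Finset.sum_congr rfl fun p _ => ?_
          rw [Polynomial.derivative_C_mul_X_pow]
          simp
          ring
    refine Polynomial.eq_zero_of_dvd_of_degree_lt hd ?_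
    have h5 : (∏ i : Fin r, (Polynomial.X - Polynomial.C (L i)) ^ 2).degree = ((2 * r : ℕ) : WithBot ℕ) := by
      rw [Polynomial.degree_prod]
      simp only [Polynomial.degree_pow, Polynomial.degree_X_sub_C, Finset.sum_const,
        Finset.card_univ, Fintype.card_fin, nsmul_eq_mul]
      push_cast
      ring
    rw [h5]
    rw [← Polynomial.mem_degreeLT]
    unfold po
    refine Submodule.sum_mem _ fun p _ => ?_
    rw [Polynomial.mem_degreeLT]
    refine lt_of_le_of_lt (Polynomial.degree_C_mul_X_pow_le _ _) ?_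
    exact_mod_cast dg_lt p
  intro p
  rw [← po_coeff y p, hp, Polynomial.coeff_zero]

theorem matT : S_MAT := by
  intro n r s e u w he hinj hdet
  obtain ⟨x, hx0, hx⟩ := Matrix.exists_mulVec_eq_zero_iff.mpr hdet
  apply hx0
  have hrow : ∀ J, ∑ J', mat s e u w J J' * x J' = 0 := fun J => congrFun hx J
  have hl : ∀ l, x (Sum.inl l) = 0 := by
    intro l
    have h := hrow (Sum.inl l)
    rw [Fintype.sum_sum_type] at h
    simp only [mat, ite_mul, zero_mul, Finset.sum_ite_eq, Finset.mem_univ, if_true,
      Finset.sum_const_zero, add_zero] at h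
    rcases mul_eq_zero.mp h with h | h
    · exact absurd h he
    · exact h
  have hD : ∀ (o : Option (Fin n)) (i : Fin r),
      ∑ p, ((dg p : ℝ) * Lf s (w i) ^ (dg p - 1)) * x (Sum.inr (o, p)) = 0 := by
    intro o i
    have h := hrow (Sum.inr (o, (i, 1)))
    rw [Fintype.sum_sum_type, Fintype.sum_prod_type] at h
    cases o with
    | none =>
      simp only [mat, one_ne_zero, if_false, zero_mul, Finset.sum_const_zero, zero_add] at h
      rw [Finset.sum_eq_single none] at h
      · simpa using h
      · intro o' _ ho'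
        simp [ho']
      · intro h'
        exact absurd (Finset.mem_univ _) h'
    | some j =>
      simp only [mat, one_ne_zero, if_false, zero_mul, Finset.sum_const_zero, zero_add] at h
      rw [Finset.sum_eq_single (some j)] at h
      · simpa using h
      · intro o' _ ho'
        simp [ho']
      · intro h'
        exact absurd (Finset.mem_univ _) h'
  have hE1 : ∀ (j : Fin n) (i : Fin r),
      ∑ p, Lf s (w i) ^ dg p * x (Sum.inr (some j, p)) = 0 := by
    intro j i
    have h := hrow (Sum.inr (some j, (i, 0)))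
    rw [Fintype.sum_sum_type, Fintype.sum_prod_type] at h
    simp only [mat, if_true, reduceCtorEq, if_false, zero_mul, Finset.sum_const_zero,
      zero_add] at h
    have h2 : ∀ o' : Option (Fin n), ∑ p : Fin r × Fin 2,
        e * ((dg p : ℝ) * Lf s (w i) ^ (dg p - 1) * ((s : ℝ) ^ (j : ℕ)) * ow (w i) o' +
          Lf s (w i) ^ dg p * (if o' = some j then 1 else 0)) * x (Sum.inr (o', p)) =
        e * (s : ℝ) ^ (j : ℕ) * ow (w i) o' *
          (∑ p, ((dg p : ℝ) * Lf s (w i) ^ (dg p - 1)) * x (Sum.inr (o', p))) +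
        e * ((if o' = some j then 1 else 0) *
          (∑ p, Lf s (w i) ^ dg p * x (Sum.inr (o', p)))) := by
      intro o'
      rw [Finset.mul_sum, Finset.mul_sum, Finset.mul_sum, ← Finset.sum_add_distrib]
      refine Finset.sum_congr rfl fun p _ => ?_
      ring
    rw [Finset.sum_congr rfl fun o' _ => h2 o'] at h
    simp only [hD, mul_zero, zero_add, ite_mul, one_mul, zero_mul] at h
    rw [← Finset.mul_sum] at h
    rw [Finset.sum_ite_eq' Finset.univ (some j)] at h
    simp only [Finset.mem_univ, if_true] at h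
    rcases mul_eq_zero.mp h with h | h
    · exact absurd h he
    · exact h
  have hy1 : ∀ (j : Fin n) p, x (Sum.inr (some j, p)) = 0 := fun j =>
    po_zero (fun p => x (Sum.inr (some j, p))) (fun i => Lf s (w i)) hinj (hE1 j) (hD (some j))
  have hE0 : ∀ (i : Fin r), ∑ p, Lf s (w i) ^ dg p * x (Sum.inr (none, p)) = 0 := by
    intro i
    have h := hrow (Sum.inr (none, (i, 0)))
    rw [Fintype.sum_sum_type, Fintype.sum_prod_type, Fintype.sum_option] at h
    simp only [mat, if_true, hl, hy1, mul_zero, Finset.sum_const_zero, zero_add, add_zero, ow,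
      Option.elim, mul_one] at h
    have h3 : ∑ p : Fin r × Fin 2, e * Lf s (w i) ^ dg p * x (Sum.inr (none, p)) =
        e * ∑ p, Lf s (w i) ^ dg p * x (Sum.inr (none, p)) := by
      rw [Finset.mul_sum]
      refine Finset.sum_congr rfl fun p _ => ?_
      ring
    rw [h3] at h
    rcases mul_eq_zero.mp h with h | h
    · exact absurd h he
    · exact h
  have hy0 : ∀ p, x (Sum.inr (none, p)) = 0 :=
    po_zero (fun p => x (Sum.inr (none, p))) (fun i => Lf s (w i)) hinj hE0 (hD none)
  funext J
  rcases J with l | ⟨o, p⟩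
  · exact hl l
  · cases o with
    | none => exact hy0 p
    | some j => exact hy1 j p

end Pool.Agent.W766.IP
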